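import Mathlib

set_option autoImplicit false

/-! Affine coordinates for the split Cayley hexagon, with a twisting constant `c`. -/

namespace Pool.Agent.Lib.MP_fefc02_co

section Ring
variable {R : Type*} [CommRing R]

/-- Point `(s, p)` is incident with line `(t, l)` in the `c`-twisted affine hexagon. -/
def HInc (c s : R) (p : Fin 4 → R) (t : R) (l : Fin 4 → R) : Prop :=
  l 0 = p 0 + s * t ∧ l 1 = p 1 + s ^ 2 * t ∧ l 2 = p 2 + c * s + s ^ 3 * t ∧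
    l 3 = p 3 + c * s + s ^ 3 * t ^ 2 + 3 * p 0 * s ^ 2 * t

/-- The line with first coordinate `t` through the point `(s, p)`. -/
def upL (c s : R) (p : Fin 4 → R) (t : R) : Fin 4 → R :=
  ![p 0 + s * t, p 1 + s ^ 2 * t, p 2 + c * s + s ^ 3 * t,
    p 3 + c * s + s ^ 3 * t ^ 2 + 3 * p 0 * s ^ 2 * t]

/-- The point with first coordinate `s` on the line `(t, l)`. -/
def dnP (c t : R) (l : Fin 4 → R) (s : R) : Fin 4 → R :=
  ![l 0 - s * t, l 1 - s ^ 2 * t, l 2 - c * s - s ^ 3 * t,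
    l 3 - c * s - s ^ 3 * t ^ 2 - 3 * (l 0 - s * t) * s ^ 2 * t]

lemma hinc_upL (c s : R) (p : Fin 4 → R) (t : R) : HInc c s p t (upL c s p t) := by
  simp [HInc, upL]

lemma hinc_dnP (c t : R) (l : Fin 4 → R) (s : R) : HInc c s (dnP c t l s) t l := by
  refine ⟨?_, ?_, ?_, ?_⟩ <;> simp [dnP] <;> ring

lemma HInc.eq_upL {c s : R} {p : Fin 4 → R} {t : R} {l : Fin 4 → R} (h : HInc c s p t l) :
    l = upL c s p t := by
  obtain ⟨h0, h1, h2, h3⟩ := h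
  funext i
  fin_cases i <;> simp [upL, h0, h1, h2, h3]

lemma HInc.eq_dnP {c s : R} {p : Fin 4 → R} {t : R} {l : Fin 4 → R} (h : HInc c s p t l) :
    p = dnP c t l s := by
  obtain ⟨h0, h1, h2, h3⟩ := h
  funext i
  fin_cases i <;> simp [dnP, h0, h1, h2, h3] <;> ring

/-- The invariant bilinear form of the 7-dimensional model, in affine coordinates. -/
def bet (c s : R) (p : Fin 4 → R) (s' : R) (q : Fin 4 → R) : R :=
  s * s' * (p 0 - q 0) ^ 2 + (p 1 - q 1) ^ 2 - (p 0 - q 0) * (p 2 + c * s - (q 2 + c * s'))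
    + (s - s') * (p 3 + c * s - (q 3 + c * s'))
    + s * (-2 * p 0 * p 1 + 2 * p 0 * q 1 - p 1 * q 0 + q 0 * q 1)
    + s' * (p 0 * p 1 - p 0 * q 1 + 2 * p 1 * q 0 - 2 * q 0 * q 1)

lemma bet_four {c s0 s1 s2 t0 t1 : R} {p0 p1 p2 l0 l1 : Fin 4 → R}
    (a0 : HInc c s0 p0 t0 l0) (b0 : HInc c s1 p1 t0 l0) (a1 : HInc c s1 p1 t1 l1)
    (b1 : HInc c s2 p2 t1 l1) : bet c s0 p0 s2 p2 = 0 := by
  have e0 := a0.eq_upL
  have e1 := b0.eq_dnP
  have e2 := a1.eq_upL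
  have e3 := b1.eq_dnP
  subst e0
  subst e2
  rw [e3, e1]
  simp [bet, upL, dnP]
  ring

lemma bet_six {c s0 s1 s2 s3 t0 t1 t2 : R} {p0 p1 p2 p3 l0 l1 l2 : Fin 4 → R}
    (a0 : HInc c s0 p0 t0 l0) (b0 : HInc c s1 p1 t0 l0) (a1 : HInc c s1 p1 t1 l1)
    (b1 : HInc c s2 p2 t1 l1) (a2 : HInc c s2 p2 t2 l2) (b2 : HInc c s3 p3 t2 l2) :
    bet c s0 p0 s3 p3 = (s0 - s1) * (t0 - t1) * (s1 - s2) ^ 2 * (t1 - t2) * (s2 - s3) := by
  have e0 := a0.eq_upL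
  have e1 := b0.eq_dnP
  have e2 := a1.eq_upL
  have e3 := b1.eq_dnP
  have e4 := a2.eq_upL
  have e5 := b2.eq_dnP
  subst e0
  subst e2
  subst e4
  rw [e5, e3, e1]
  simp [bet, upL, dnP]
  ring

def mu1 (s : R) (p : Fin 4 → R) (t : R) (l : Fin 4 → R) : R := (l 0 - p 0) - s * t
def mu2 (s : R) (p : Fin 4 → R) (t : R) (l : Fin 4 → R) : R :=
  (l 1 - p 1) - 2 * s * (l 0 - p 0) + s ^ 2 * t
def mu3 (c s : R) (p : Fin 4 → R) (t : R) (l : Fin 4 → R) : R :=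
  (l 2 - p 2 - c * s) - 3 * s * (l 1 - p 1) + 3 * s ^ 2 * (l 0 - p 0) - s ^ 3 * t
def qP (c s : R) (p : Fin 4 → R) (t : R) (l : Fin 4 → R) : R :=
  mu1 s p t l * mu3 c s p t l - mu2 s p t l ^ 2
def qQ (c s : R) (p : Fin 4 → R) (t : R) (l : Fin 4 → R) : R :=
  s * t * (p 1 - l 1) + s * (p 0 - l 0) ^ 2 + t * (l 2 - p 2 - c * s) + p 0 * p 1 - p 0 * l 1
    + 2 * p 1 * l 0 - 2 * l 0 * l 1 + (l 3 - p 3 - c * s)
def qR (c s : R) (p : Fin 4 → R) (t : R) (l : Fin 4 → R) : R :=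
  mu2 s p t l * qQ c s p t l - qP c s p t l * mu1 s p t l
def qT (c s : R) (p : Fin 4 → R) (t : R) (l : Fin 4 → R) : R :=
  mu3 c s p t l * qQ c s p t l - qP c s p t l * mu2 s p t l

/-- Non-vanishing of this polynomial gives a 5-step walk from the point to the line. -/
def Del (c s : R) (p : Fin 4 → R) (t : R) (l : Fin 4 → R) : R :=
  qQ c s p t l * qP c s p t l * qR c s p t l * qT c s p t l *
    (qT c s p t l * qQ c s p t l - qP c s p t l * qR c s p t l)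

lemma Del_map {S : Type*} [CommRing S] (φ : R →+* S) (c s : R) (p : Fin 4 → R) (t : R)
    (l : Fin 4 → R) :
    φ (Del c s p t l) = Del (φ c) (φ s) (fun i => φ (p i)) (φ t) (fun i => φ (l i)) := by
  simp [Del, qT, qR, qQ, qP, mu1, mu2, mu3, map_ofNat]

lemma upL_map {S : Type*} [CommRing S] (φ : R →+* S) (c s : R) (p : Fin 4 → R) (t : R)
    (i : Fin 4) : φ (upL c s p t i) = upL (φ c) (φ s) (fun i => φ (p i)) (φ t) i := by
  fin_cases i <;> simp [upL, map_ofNat]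

lemma Del_diag : Del (1 : R) 1 (fun _ => 0) 1 (fun _ => 0) = -30 := by
  simp [Del, qT, qR, qQ, qP, mu1, mu2, mu3]
  norm_num

lemma upL_zero (c : R) (p : Fin 4 → R) : upL c 0 p 0 = p := by
  funext i
  fin_cases i <;> simp [upL]

end Ring

section Field
variable {F : Type*} [Field F]

lemma tt_two {c c' s0 s1 t t' : F} {p0 p1 l l' : Fin 4 → F}
    (a : HInc c s0 p0 t l) (b : HInc c s1 p1 t l) (a' : HInc c' s1 p1 t' l')
    (b' : HInc c' s0 p0 t' l') (hs : s0 ≠ s1) (hc : c ≠ c') : False := by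
  obtain ⟨a0, -, a2, -⟩ := a
  obtain ⟨b0, -, b2, -⟩ := b
  obtain ⟨c0, -, c2, -⟩ := a'
  obtain ⟨d0, -, d2, -⟩ := b'
  have h1 : (s0 - s1) * (t - t') = 0 := by linear_combination b0 - a0 + d0 - c0
  have ht : t = t' := by
    rcases mul_eq_zero.mp h1 with h | h
    · exact absurd (sub_eq_zero.mp h) hs
    · exact sub_eq_zero.mp h
  subst ht
  have h2 : (s0 - s1) * (c - c') = 0 := by linear_combination b2 - a2 + d2 - c2
  rcases mul_eq_zero.mp h2 with h | h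
  · exact hs (sub_eq_zero.mp h)
  · exact hc (sub_eq_zero.mp h)

lemma tt_four {c c' s0 s1 s2 t0 t1 t' : F} {p0 p1 p2 l0 l1 l' : Fin 4 → F}
    (a0 : HInc c s0 p0 t0 l0) (b0 : HInc c s1 p1 t0 l0) (a1 : HInc c s1 p1 t1 l1)
    (b1 : HInc c s2 p2 t1 l1) (a' : HInc c' s2 p2 t' l') (b' : HInc c' s0 p0 t' l')
    (h01 : s0 ≠ s1) (h12 : s1 ≠ s2) (ht : t0 ≠ t1) : False := by
  obtain ⟨a00, a01, -, -⟩ := a0
  obtain ⟨b00, b01, -, -⟩ := b0
  obtain ⟨a10, a11, -, -⟩ := a1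
  obtain ⟨b10, b11, -, -⟩ := b1
  obtain ⟨c0, c1, -, -⟩ := a'
  obtain ⟨d0, d1, -, -⟩ := b'
  have h : (t0 - t1) * (s0 - s1) * (s1 - s2) = 0 := by
    linear_combination (s0 + s2) * (a00 - b00 + a10 - b10 + c0 - d0) -
      (a01 - b01 + a11 - b11 + c1 - d1)
  rcases mul_eq_zero.mp h with h | h
  · rcases mul_eq_zero.mp h with h | h
    · exact ht (sub_eq_zero.mp h)
    · exact h01 (sub_eq_zero.mp h)
  · exact h12 (sub_eq_zero.mp h)

/-- Existence of a 5-step walk from a point to a line in general position. -/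
lemma path_five {c s : F} {p : Fin 4 → F} {t : F} {l : Fin 4 → F} (h : Del c s p t l ≠ 0) :
    ∃ t0 s1 t1 s2 : F,
      upL c s2 (dnP c t1 (upL c s1 (dnP c t0 (upL c s p t0) s1) t1) s2) t = l := by
  unfold Del at h
  have hQ : qQ c s p t l ≠ 0 := fun e => h (by simp [e])
  have hP : qP c s p t l ≠ 0 := fun e => h (by simp [e])
  have hR : qR c s p t l ≠ 0 := fun e => h (by simp [e])
  have hT : qT c s p t l ≠ 0 := fun e => h (by simp [e])
  have hD : qT c s p t l * qQ c s p t l - qP c s p t l * qR c s p t l ≠ 0 :=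
    fun e => h (by simp [e])
  obtain ⟨σ2, e2⟩ : ∃ σ2 : F, σ2 * qQ c s p t l = qP c s p t l :=
    ⟨qP c s p t l / qQ c s p t l, by field_simp⟩
  obtain ⟨σ1, e1⟩ : ∃ σ1 : F, σ1 * qR c s p t l = qT c s p t l :=
    ⟨qT c s p t l / qR c s p t l, by field_simp⟩
  have n1 : σ1 ≠ 0 := fun e => hT (by rw [← e1, e, zero_mul])
  have n2 : σ2 ≠ 0 := fun e => hP (by rw [← e2, e, zero_mul])
  have n12 : σ1 - σ2 ≠ 0 := by
    intro e
    apply hD
    have : σ1 = σ2 := sub_eq_zero.mp e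
    rw [← e1, ← e2, this]
    ring
  -- weights
  obtain ⟨w1, f1⟩ : ∃ w1 : F, w1 * (σ1 * (σ1 - σ2)) = mu2 s p t l - σ2 * mu1 s p t l :=
    ⟨(mu2 s p t l - σ2 * mu1 s p t l) / (σ1 * (σ1 - σ2)), by field_simp⟩
  obtain ⟨w2, f2⟩ : ∃ w2 : F, w2 * (σ2 * (σ1 - σ2)) = mu1 s p t l * σ1 - mu2 s p t l :=
    ⟨(mu1 s p t l * σ1 - mu2 s p t l) / (σ2 * (σ1 - σ2)), by field_simp⟩
  have m1 : mu1 s p t l = w1 * σ1 + w2 * σ2 := by
    apply mul_left_cancel₀ n12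
    linear_combination -f1 - f2
  have m2 : mu2 s p t l = w1 * σ1 ^ 2 + w2 * σ2 ^ 2 := by
    apply mul_left_cancel₀ n12
    linear_combination -σ1 * f1 - σ2 * f2
  have m3 : mu3 c s p t l = w1 * σ1 ^ 3 + w2 * σ2 ^ 3 := by
    apply mul_left_cancel₀ hQ
    have e1' := e1
    unfold qR qT at e1'
    rw [← e2] at e1'
    rw [m1, m2] at e1'
    linear_combination -e1'
  have mQ : qQ c s p t l = w1 * w2 * σ1 * (σ1 - σ2) ^ 2 := by
    apply mul_left_cancel₀ n2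
    rw [e2]
    unfold qP
    rw [m1, m2, m3]
    ring
  refine ⟨t - w1 - w2, s + σ1, t - w2, s + σ2, ?_⟩
  unfold mu1 at m1
  unfold mu2 at m2
  unfold mu3 at m3
  unfold qQ at mQ
  have l0 : l 0 = p 0 + s * t + w1 * σ1 + w2 * σ2 := by linear_combination m1
  have l1 : l 1 = p 1 + 2 * s * (l 0 - p 0) - s ^ 2 * t + w1 * σ1 ^ 2 + w2 * σ2 ^ 2 := by
    linear_combination m2
  have l2 : l 2 = p 2 + c * s + 3 * s * (l 1 - p 1) - 3 * s ^ 2 * (l 0 - p 0) + s ^ 3 * t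
      + w1 * σ1 ^ 3 + w2 * σ2 ^ 3 := by linear_combination m3
  have l3 : l 3 = p 3 + c * s + w1 * w2 * σ1 * (σ1 - σ2) ^ 2 - (s * t * (p 1 - l 1)
      + s * (p 0 - l 0) ^ 2 + t * (l 2 - p 2 - c * s) + p 0 * p 1 - p 0 * l 1
      + 2 * p 1 * l 0 - 2 * l 0 * l 1) := by linear_combination mQ
  funext i
  fin_cases i
  · simp [upL, dnP]
    rw [l0]; ring
  · simp [upL, dnP]
    rw [l1, l0]; ring
  · simp [upL, dnP]
    rw [l2, l1, l0]; ring
  · simp [upL, dnP]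
    rw [l3, l2, l1, l0]; ring

end Field

end Pool.Agent.Lib.MP_fefc02_co
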