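import Mathlib

set_option autoImplicit false

/-! Height patterns of short closed walks on the integer line. -/

namespace Pool.Agent.Lib.MP_fefc02_co

/-- layer of the `i`-th edge -/
def lay (u : ℕ → ℤ) (i : ℕ) : ℤ := min (u i) (u (i + 1))

def Pat (n : ℕ) (u : ℕ → ℤ) : Prop :=
  (u 1 = 1 ∧ u 2 = 0 ∧ ∀ i < n, 2 ≤ i → lay u i ≠ 0) ∨
  (u 1 = -1 ∧ u 2 = 0 ∧ ∀ i < n, 2 ≤ i → lay u i ≠ -1) ∨
  (∃ a < n, 0 < a ∧ u a = 0 ∧ (∀ i < a, lay u i = 0) ∧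
    ∀ i < n, a ≤ i → lay u i = -1 ∨ lay u i = -2) ∨
  (∀ i < n, lay u i = 0) ∨
  (n = 8 ∧ u 1 = 1 ∧ u 2 = 0 ∧ u 3 = -1 ∧ u 4 = 0 ∧ u 5 = 1 ∧ u 6 = 0 ∧ u 7 = -1) ∨
  (n = 10 ∧ u 1 = 1 ∧ u 2 = 0 ∧ u 3 = -1 ∧ u 4 = 0 ∧ u 5 = -1 ∧ u 6 = 0 ∧ u 7 = 1 ∧ u 8 = 0
    ∧ u 9 = -1) ∨
  (n = 10 ∧ u 1 = 1 ∧ u 2 = 0 ∧ u 3 = 1 ∧ u 4 = 0 ∧ u 5 = -1 ∧ u 6 = 0 ∧ u 7 = 1 ∧ u 8 = 0
    ∧ u 9 = -1)

instance (n : ℕ) (u : ℕ → ℤ) : Decidable (Pat n u) := by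
  unfold Pat; infer_instance

def ht (b : ℕ → Bool) : ℕ → ℤ
  | 0 => 0
  | i + 1 => ht b i + (if b i then 1 else -1)

def per (n : ℕ) (L : List Bool) (i : ℕ) : Bool := L.getD (i % n) false

theorem classify_bool : ∀ b0 b1 b2 b3 b4 b5 b6 b7 b8 b9 : Bool, ∀ n < 11, 3 ≤ n →
    ht (per n [b0, b1, b2, b3, b4, b5, b6, b7, b8, b9]) n = 0 →
    ∃ r < n, Pat n (fun i => ht (per n [b0, b1, b2, b3, b4, b5, b6, b7, b8, b9]) (r + i)
      - ht (per n [b0, b1, b2, b3, b4, b5, b6, b7, b8, b9]) r) := by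
  decide +kernel

theorem classify (n : ℕ) (h3 : 3 ≤ n) (h10 : n ≤ 10) (h : ℕ → ℤ)
    (hs : ∀ i, h (i + 1) = h i + 1 ∨ h (i + 1) = h i - 1) (hp : ∀ i, h (i + n) = h i) :
    ∃ r, Pat n (fun i => h (r + i) - h r) := by
  classical
  let σ : ℕ → Bool := fun i => decide (h (i + 1) = h i + 1)
  have hpm : ∀ k i, h (i + n * k) = h i := by
    intro k
    induction k with
    | zero => simp
    | succ k ih => intro i; rw [Nat.mul_succ, ← add_assoc, hp, ih]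
  have hσ : ∀ i, per n [σ 0, σ 1, σ 2, σ 3, σ 4, σ 5, σ 6, σ 7, σ 8, σ 9] i = σ i := by
    intro i
    have hlt : i % n < n := Nat.mod_lt _ (by omega)
    have e : σ i = σ (i % n) := by
      have e1 : h i = h (i % n) := by
        conv_lhs => rw [← Nat.mod_add_div i n]
        exact hpm _ _
      have e2 : h (i + 1) = h (i % n + 1) := by
        conv_lhs => rw [← Nat.mod_add_div i n]
        rw [add_right_comm]
        exact hpm _ _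
      simp only [σ, e1, e2]
    rw [e]
    unfold per
    generalize i % n = j at hlt ⊢
    have : j < 10 := by omega
    interval_cases j <;> rfl
  have hh : ∀ i, ht (per n [σ 0, σ 1, σ 2, σ 3, σ 4, σ 5, σ 6, σ 7, σ 8, σ 9]) i = h i - h 0 := by
    intro i
    induction i with
    | zero => simp [ht]
    | succ i ih =>
      rw [ht, ih, hσ]
      rcases hs i with e | e
      · simp [σ, e]; ring
      · have : ¬ (h (i + 1) = h i + 1) := by omega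
        simp [σ, this]; omega
  obtain ⟨r, -, hr⟩ := classify_bool (σ 0) (σ 1) (σ 2) (σ 3) (σ 4) (σ 5) (σ 6) (σ 7) (σ 8) (σ 9)
    n (by omega) h3 (by rw [hh]; have := hp 0; simp at this; omega)
  refine ⟨r, ?_⟩
  simp only [hh] at hr
  convert hr using 2 with i
  ring

end Pool.Agent.Lib.MP_fefc02_co
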