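import Mathlib
import Pool.Agent.Lib.MP_fefc02_co.Hex
import Pool.Agent.Lib.MP_fefc02_co.Pattern

set_option autoImplicit false

/-! The cyclic layered graph and its girth. -/

namespace Pool.Agent.Lib.MP_fefc02_co

abbrev Idx (M : ℕ) := ZMod M ⊕ (Fin 4 × Fin 4)

section Defs
variable {R : Type} [CommRing R] {M : ℕ}

def A (x : Idx M → R) (k : ZMod M) : R := x (Sum.inl k)
def B (x : Idx M → R) (b : Fin 4) : Fin 4 → R := fun j => x (Sum.inr (b, j))

omit [CommRing R] in
lemma st_ext {x y : Idx M → R} (h1 : ∀ i, A x i = A y i) (h2 : ∀ b, B x b = B y b) : x = y := by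
  funext i
  rcases i with i | ⟨b, j⟩
  · exact h1 i
  · exact congrFun (h2 b) j

def Inc (β : ZMod M → Fin 4) (k : ZMod M) (x y : Idx M → R) : Prop :=
  (∀ i, i ≠ k → A y i = A x i) ∧ (∀ b, b ≠ β k → B y b = B x b) ∧
    HInc (A x (k - 1)) (A x k) (B x (β k)) (A y k) (B y (β k))

def Gr (R : Type) [CommRing R] (β : ZMod M → Fin 4) : SimpleGraph (ZMod M × (Idx M → R)) :=
  SimpleGraph.fromRel fun u v => v.1 = u.1 + 1 ∧ Inc β u.1 u.2 v.2

lemma cast_ne (hM : 11 ≤ M) (K : ZMod M) {a b : ℤ} (hab : a ≠ b) (h1 : a - b ≤ 10)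
    (h2 : b - a ≤ 10) : K + (a : ZMod M) ≠ K + (b : ZMod M) := by
  intro h
  have h' : (a : ZMod M) = b := add_left_cancel h
  rw [ZMod.intCast_eq_intCast_iff_dvd_sub] at h'
  have := Int.eq_zero_of_abs_lt_dvd h' (by rw [abs_lt]; constructor <;> omega)
  omega

lemma pred_ne (hM : 11 ≤ M) (k : ZMod M) : k - 1 ≠ k := by
  have := cast_ne hM k (a := -1) (b := 0) (by norm_num) (by norm_num) (by norm_num)
  simpa [sub_eq_add_neg] using this

variable {β : ZMod M → Fin 4}

lemma nb_up (hM : 11 ≤ M) {k : ZMod M} {x x' y : Idx M → R} (h : Inc β k x y)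
    (h' : Inc β k x' y) (e : A x k = A x' k) : x = x' := by
  have hc : A x (k - 1) = A x' (k - 1) := by
    rw [← h.1 _ (pred_ne hM k), h'.1 _ (pred_ne hM k)]
  apply st_ext
  · intro i
    by_cases hi : i = k
    · rw [hi, e]
    · rw [← h.1 _ hi, h'.1 _ hi]
  · intro b
    by_cases hb : b = β k
    · rw [hb, h.2.2.eq_dnP, h'.2.2.eq_dnP, hc, e]
    · rw [← h.2.1 _ hb, h'.2.1 _ hb]

lemma nb_dn {k : ZMod M} {x y y' : Idx M → R} (h : Inc β k x y)
    (h' : Inc β k x y') (e : A y k = A y' k) : y = y' := by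
  apply st_ext
  · intro i
    by_cases hi : i = k
    · rw [hi, e]
    · rw [h.1 _ hi, h'.1 _ hi]
  · intro b
    by_cases hb : b = β k
    · rw [hb, h.2.2.eq_upL, h'.2.2.eq_upL, e]
    · rw [h.2.1 _ hb, h'.2.1 _ hb]

end Defs

section Core
variable {F : Type} [Field F] {M : ℕ} {β : ZMod M → Fin 4}

lemma bb_window (hM : 11 ≤ M) (hβ1 : ∀ k, β (k - 1) ≠ β k) {k : ZMod M} {z x x' : Idx M → F}
    (h : Inc β (k - 1) z x) (h' : Inc β (k - 1) z x') :
    A x k = A x' k ∧ B x (β k) = B x' (β k) := by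
  constructor
  · rw [h.1 _ (pred_ne hM k).symm, h'.1 _ (pred_ne hM k).symm]
  · rw [h.2.1 _ (hβ1 k).symm, h'.2.1 _ (hβ1 k).symm]

lemma tt_c (hM : 11 ≤ M) {k : ZMod M} {x x' y : Idx M → F} (h : Inc β k x y)
    (h' : Inc β k x' y) : A x' (k - 1) = A x (k - 1) := by
  rw [← h.1 _ (pred_ne hM k), h'.1 _ (pred_ne hM k)]

lemma ttbb (hM : 11 ≤ M) {k : ZMod M} {x0 x1 x2 x3 y y' : Idx M → F}
    (a : Inc β k x0 y) (b : Inc β k x1 y) (a' : Inc β k x2 y') (b' : Inc β k x3 y')
    (hne : x0 ≠ x1) (w1 : A x1 k = A x2 k ∧ B x1 (β k) = B x2 (β k))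
    (w2 : A x3 k = A x0 k ∧ B x3 (β k) = B x0 (β k))
    (hc : A x3 (k - 1) ≠ A x0 (k - 1)) : False := by
  have hs : A x0 k ≠ A x1 k := fun e => hne (nb_up hM a b e)
  have e1 := tt_c hM a b
  have e2 := tt_c hM a' b'
  have hb := b.2.2
  have ha' := a'.2.2
  have hb' := b'.2.2
  rw [e1] at hb
  rw [← e2, ← w1.1, ← w1.2] at ha'
  rw [w2.1, w2.2] at hb'
  exact tt_two a.2.2 hb ha' hb' hs hc.symm

lemma t4bb (hM : 11 ≤ M) {k : ZMod M} {x0 x1 x2 x3 x4 y0 y1 y' : Idx M → F}
    (a0 : Inc β k x0 y0) (b0 : Inc β k x1 y0) (a1 : Inc β k x1 y1) (b1 : Inc β k x2 y1)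
    (a' : Inc β k x3 y') (b' : Inc β k x4 y')
    (n01 : x0 ≠ x1) (n12 : x1 ≠ x2) (ny : y0 ≠ y1)
    (w1 : A x2 k = A x3 k ∧ B x2 (β k) = B x3 (β k))
    (w2 : A x4 k = A x0 k ∧ B x4 (β k) = B x0 (β k)) : False := by
  have s01 : A x0 k ≠ A x1 k := fun e => n01 (nb_up hM a0 b0 e)
  have s12 : A x1 k ≠ A x2 k := fun e => n12 (nb_up hM a1 b1 e)
  have t01 : A y0 k ≠ A y1 k := fun e => ny (nb_dn b0 a1 e)
  have e1 := tt_c hM a0 b0
  have e2 := tt_c hM a1 b1
  have e3 := tt_c hM a' b'
  have hb0 := b0.2.2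
  have ha1 := a1.2.2
  have hb1 := b1.2.2
  have ha' := a'.2.2
  have hb' := b'.2.2
  rw [e1] at hb0 ha1
  rw [e2, e1] at hb1
  rw [← e3, ← w1.1, ← w1.2] at ha'
  rw [w2.1, w2.2] at hb'
  exact tt_four a0.2.2 hb0 ha1 hb1 ha' hb' s01 s12 t01

lemma single_layer (hM : 11 ≤ M) {k : ZMod M} {m : ℕ} (h2 : 2 ≤ m) (h5 : m ≤ 5)
    (x y : ℕ → Idx M → F) (a : ∀ j, Inc β k (x j) (y j)) (b : ∀ j, Inc β k (x (j + 1)) (y j))
    (px : ∀ j, x (j + m) = x j) (nx : ∀ j, x j ≠ x (j + 1)) (ny : ∀ j, y j ≠ y (j + 1)) :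
    False := by
  have hc : ∀ j, A (x j) (k - 1) = A (x 0) (k - 1) := by
    intro j
    induction j with
    | zero => rfl
    | succ j ih => rw [tt_c hM (a j) (b j), ih]
  have ha : ∀ j, HInc (A (x 0) (k - 1)) (A (x j) k) (B (x j) (β k)) (A (y j) k)
      (B (y j) (β k)) := fun j => by rw [← hc j]; exact (a j).2.2
  have hb : ∀ j, HInc (A (x 0) (k - 1)) (A (x (j + 1)) k) (B (x (j + 1)) (β k)) (A (y j) k)
      (B (y j) (β k)) := fun j => by rw [← hc (j + 1)]; exact (b j).2.2
  have hs : ∀ j, A (x j) k - A (x (j + 1)) k ≠ 0 := fun j e =>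
    nx j (nb_up hM (a j) (b j) (sub_eq_zero.mp e))
  have ht : ∀ j, A (y j) k - A (y (j + 1)) k ≠ 0 := fun j e =>
    ny j (nb_dn (b j) (a (j + 1)) (sub_eq_zero.mp e))
  have h6 := bet_six (ha 0) (hb 0) (ha 1) (hb 1) (ha 2) (hb 2)
  have hne : bet (A (x 0) (k - 1)) (A (x 0) k) (B (x 0) (β k)) (A (x 3) k) (B (x 3) (β k)) ≠ 0 := by
    rw [h6]
    exact mul_ne_zero (mul_ne_zero (mul_ne_zero (mul_ne_zero (hs 0) (ht 0))
      (pow_ne_zero _ (hs 1))) (ht 1)) (hs 2)
  apply hne
  interval_cases m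
  · have e : x 3 = x 1 := px 1
    rw [e]
    exact bet_four (ha 0) (hb 0) (ha 1) (ha 1)
  · have e : x 3 = x 0 := px 0
    rw [e]
    exact bet_four (ha 0) (ha 0) (ha 0) (ha 0)
  · have e : x 4 = x 0 := px 0
    have := bet_four (hb 3) (ha 3) (ha 3) (ha 3)
    simpa only [Nat.reduceAdd, e] using this
  · have e : x 5 = x 0 := px 0
    have := bet_four (hb 4) (ha 4) (hb 3) (ha 3)
    simpa only [Nat.reduceAdd, e] using this

lemma no_short (hM : 11 ≤ M) (hβ1 : ∀ k, β (k - 1) ≠ β k) (hβ2 : ∀ k, β (k - 2) ≠ β k)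
    (K : ZMod M) (n : ℕ) (h3 : 3 ≤ n) (h10 : n ≤ 10) (u : ℕ → ℤ) (u0 : u 0 = 0)
    (f : ℕ → Idx M → F)
    (step : ∀ i, (u (i + 1) = u i + 1 ∧ Inc β (K + u i) (f i) (f (i + 1))) ∨
      (u (i + 1) = u i - 1 ∧ Inc β (K + u (i + 1)) (f (i + 1)) (f i)))
    (fper : ∀ i, f (i + n) = f i) (uper : ∀ i, u (i + n) = u i)
    (inj : ∀ i j, i < j → j < i + n → u i = u j → f i ≠ f j) (pat : Pat n u) : False := by
  have up : ∀ i, u (i + 1) = u i + 1 → Inc β (K + u i) (f i) (f (i + 1)) := by
    intro i h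
    rcases step i with h' | h'
    · exact h'.2
    · omega
  have dn : ∀ i, u (i + 1) = u i - 1 → Inc β (K + u (i + 1)) (f (i + 1)) (f i) := by
    intro i h
    rcases step i with h' | h'
    · omega
    · exact h'.2
  have up0 : ∀ i, u i = 0 → u (i + 1) = 1 → Inc β K (f i) (f (i + 1)) := by
    intro i h h'
    simpa [h] using up i (by omega)
  have dn0 : ∀ i, u i = 1 → u (i + 1) = 0 → Inc β K (f (i + 1)) (f i) := by
    intro i h h'
    simpa [h'] using dn i (by omega)
  have up1 : ∀ i, u i = -1 → u (i + 1) = 0 → Inc β (K - 1) (f i) (f (i + 1)) := by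
    intro i h h'
    simpa [h, sub_eq_add_neg] using up i (by omega)
  have dn1 : ∀ i, u i = 0 → u (i + 1) = -1 → Inc β (K - 1) (f (i + 1)) (f i) := by
    intro i h h'
    simpa [h', sub_eq_add_neg] using dn i (by omega)
  have ub : ∀ i : ℕ, u i ≤ i ∧ -(i : ℤ) ≤ u i := by
    intro i
    induction i with
    | zero => simp [u0]
    | succ i ih => rcases step i with h | h <;> (have := h.1; push_cast; omega)
  have lb : ∀ i < n, lay u i ≤ 9 ∧ -10 ≤ lay u i := by
    intro i hi
    have h1 := ub i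
    have h2 := ub (i + 1)
    unfold lay
    push_cast at h2
    omega
  have edge : ∀ i, Inc β (K + lay u i) (f i) (f (i + 1)) ∨
      Inc β (K + lay u i) (f (i + 1)) (f i) := by
    intro i
    rcases step i with h | h
    · left
      have : lay u i = u i := by unfold lay; omega
      rw [this]; exact h.2
    · right
      have : lay u i = u (i + 1) := by unfold lay; omega
      rw [this]; exact h.2
  have cA : ∀ (k : ZMod M) (a b : ℕ), a ≤ b → (∀ i, a ≤ i → i < b → K + lay u i ≠ k) →
      A (f b) k = A (f a) k := by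
    intro k a b hab
    induction b, hab using Nat.le_induction with
    | base => intro _; rfl
    | succ b hab ih =>
      intro h
      rw [← ih (fun i h1 h2 => h i h1 (by omega))]
      rcases edge b with e | e
      · exact e.1 _ (h b hab (by omega)).symm
      · exact (e.1 _ (h b hab (by omega)).symm).symm
  have cB : ∀ (k : Fin 4) (a b : ℕ), a ≤ b → (∀ i, a ≤ i → i < b → β (K + lay u i) ≠ k) →
      B (f b) k = B (f a) k := by
    intro k a b hab
    induction b, hab using Nat.le_induction with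
    | base => intro _; rfl
    | succ b hab ih =>
      intro h
      rw [← ih (fun i h1 h2 => h i h1 (by omega))]
      rcases edge b with e | e
      · exact e.2.1 _ (h b hab (by omega)).symm
      · exact (e.2.1 _ (h b hab (by omega)).symm).symm
  have fn : f n = f 0 := by simpa using fper 0
  have un : u n = 0 := by simpa [u0] using uper 0
  rcases pat with ⟨u1, u2, h⟩ | ⟨u1, u2, h⟩ | ⟨a, han, ha, ua, h1, h2⟩ | h |
    ⟨hn, u1, u2, u3, u4, u5, u6, u7⟩ | ⟨hn, u1, u2, u3, u4, u5, u6, u7, u8, u9⟩ |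
    ⟨hn, u1, u2, u3, u4, u5, u6, u7, u8, u9⟩
  · have e := cA K 2 n (by omega) (fun i i1 i2 => by
      have := cast_ne hM K (h i i2 i1) (by have := lb i i2; omega) (by have := lb i i2; omega)
      simpa using this)
    rw [fn] at e
    exact inj 0 2 (by omega) (by omega) (by omega) (nb_up hM (up0 0 u0 u1) (dn0 1 u1 u2) e)
  · have e := cA (K - 1) 2 n (by omega) (fun i i1 i2 => by
      have := cast_ne hM K (h i i2 i1) (by have := lb i i2; omega) (by have := lb i i2; omega)
      simpa [sub_eq_add_neg] using this)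
    rw [fn] at e
    exact inj 0 2 (by omega) (by omega) (by omega) (nb_dn (dn1 0 u0 u1) (up1 1 u1 u2) e)
  · apply inj 0 a ha (by omega) (by omega)
    apply st_ext
    · intro i
      by_cases hi : i = K
      · rw [hi, ← fn]
        apply cA K a n (by omega)
        intro j j1 j2
        have := cast_ne hM K (a := lay u j) (b := 0) (by have := h2 j j2 j1; omega)
          (by have := lb j j2; omega) (by have := lb j j2; omega)
        simpa using this
      · symm
        apply cA i 0 a (by omega)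
        intro j _ j2
        rw [h1 j j2]
        simpa using Ne.symm hi
    · intro b
      by_cases hb : b = β K
      · rw [hb, ← fn]
        apply cB (β K) a n (by omega)
        intro j j1 j2
        rcases h2 j j2 j1 with e | e
        · rw [e]; simpa [sub_eq_add_neg] using hβ1 K
        · rw [e]; simpa [sub_eq_add_neg] using hβ2 K
      · symm
        apply cB b 0 a (by omega)
        intro j _ j2
        rw [h1 j j2]
        simpa using Ne.symm hb
  · have hall : ∀ i, lay u i = 0 := by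
      intro i
      induction i using Nat.strong_induction_on with
      | _ i ih =>
        by_cases hi : i < n
        · exact h i hi
        · have := ih (i - n) (by omega)
          unfold lay at this ⊢
          rw [← uper (i - n), ← uper (i - n + 1)] at this
          rwa [show i - n + n = i by omega, show i - n + 1 + n = i + 1 by omega] at this
    have par : ∀ j, u (2 * j) = 0 ∧ u (2 * j + 1) = 1 := by
      intro j
      induction j with
      | zero =>
        have := hall 0
        unfold lay at this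
        rcases step 0 with e | e <;> (have := e.1; simp at *; omega)
      | succ j ih =>
        have a1 := hall (2 * j + 1)
        have a2 := hall (2 * j + 1 + 1)
        unfold lay at a1 a2
        rw [show 2 * (j + 1) = 2 * j + 1 + 1 by ring]
        rcases step (2 * j + 1) with e | e <;> rcases step (2 * j + 1 + 1) with e' | e' <;>
          (have := e.1; have := e'.1; omega)
    obtain ⟨m, hm⟩ : ∃ m, n = 2 * m := by
      rcases Nat.even_or_odd' n with ⟨m, e | e⟩
      · exact ⟨m, e⟩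
      · have := (par m).2
        rw [← e] at this
        omega
    refine single_layer hM (k := K) (m := m) (by omega) (by omega) (fun j => f (2 * j))
      (fun j => f (2 * j + 1)) (fun j => up0 _ (par j).1 (par j).2)
      (fun j => dn0 (2 * j + 1) (par j).2 (par (j + 1)).1) (fun j => ?_) (fun j => ?_)
      (fun j => ?_)
    · show f (2 * (j + m)) = f (2 * j)
      rw [show 2 * (j + m) = 2 * j + n by omega, fper]
    · exact inj _ _ (by omega) (by omega) (by rw [(par j).1, (par (j + 1)).1])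
    · exact inj _ _ (by omega) (by omega) (by rw [(par j).2, (par (j + 1)).2])
  · subst hn
    have b2 := dn1 6 u6 u7
    have b2' := up1 7 u7 un
    rw [show f (7 + 1) = f 0 from fn] at b2'
    refine ttbb hM (up0 0 u0 u1) (dn0 1 u1 u2) (up0 4 u4 u5) (dn0 5 u5 u6)
      (inj 0 2 (by omega) (by omega) (by omega)) (bb_window hM hβ1 (dn1 2 u2 u3) (up1 3 u3 u4))
      (bb_window hM hβ1 b2 b2') (fun e => ?_)
    exact inj 0 6 (by omega) (by omega) (by omega) (nb_dn b2 b2' e).symm
  · subst hn
    have b2 := dn1 8 u8 u9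
    have b2' := up1 9 u9 un
    rw [show f (9 + 1) = f 0 from fn] at b2'
    have w1 := bb_window hM hβ1 (dn1 2 u2 u3) (up1 3 u3 u4)
    have w2 := bb_window hM hβ1 (dn1 4 u4 u5) (up1 5 u5 u6)
    refine ttbb hM (up0 0 u0 u1) (dn0 1 u1 u2) (up0 6 u6 u7) (dn0 7 u7 u8)
      (inj 0 2 (by omega) (by omega) (by omega)) ⟨w1.1.trans w2.1, w1.2.trans w2.2⟩
      (bb_window hM hβ1 b2 b2') (fun e => ?_)
    exact inj 0 8 (by omega) (by omega) (by omega) (nb_dn b2 b2' e).symm
  · subst hn
    have b2 := dn1 8 u8 u9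
    have b2' := up1 9 u9 un
    rw [show f (9 + 1) = f 0 from fn] at b2'
    exact t4bb hM (up0 0 u0 u1) (dn0 1 u1 u2) (up0 2 u2 u3) (dn0 3 u3 u4) (up0 6 u6 u7)
      (dn0 7 u7 u8) (inj 0 2 (by omega) (by omega) (by omega))
      (inj 2 4 (by omega) (by omega) (by omega)) (inj 1 3 (by omega) (by omega) (by omega))
      (bb_window hM hβ1 (dn1 4 u4 u5) (up1 5 u5 u6)) (bb_window hM hβ1 b2 b2')

theorem girth_gt (hM : 11 ≤ M) (hβ1 : ∀ k, β (k - 1) ≠ β k) (hβ2 : ∀ k, β (k - 2) ≠ β k)
    (v : ZMod M × (Idx M → F)) (p : (Gr F β).Walk v v) (hp : p.IsCycle) : 10 < p.length := by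
  classical
  by_contra hlen
  have h10 : p.length ≤ 10 := by omega
  have h3 := hp.three_le_length
  set n := p.length with hn
  let W : ℕ → ZMod M × (Idx M → F) := fun i => p.getVert (i % n)
  have Wper : ∀ i, W (i + n) = W i := fun i => by simp [W]
  have Wadj : ∀ i, (Gr F β).Adj (W i) (W (i + 1)) := by
    intro i
    have hlt : i % n < n := Nat.mod_lt _ (by omega)
    have := p.adj_getVert_succ (i := i % n) hlt
    have e : W (i + 1) = p.getVert (i % n + 1) := by
      simp only [W]
      by_cases h : i % n + 1 < n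
      · rw [← Nat.mod_add_mod, Nat.mod_eq_of_lt h]
      · have h' : i % n + 1 = n := by omega
        rw [← Nat.mod_add_mod, h', Nat.mod_self, SimpleGraph.Walk.getVert_zero]
        exact (SimpleGraph.Walk.getVert_length p).symm
    rw [e]
    exact this
  have Winj : ∀ i j, i < j → j < i + n → W i ≠ W j := by
    intro i j hij hj e
    have hi : i % n < n := Nat.mod_lt _ (by omega)
    have hj' : j % n < n := Nat.mod_lt _ (by omega)
    have := hp.getVert_injOn' (x₁ := i % n) (x₂ := j % n) (by simp; omega) (by simp; omega) e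
    have hd : n ∣ j - i := (Nat.modEq_iff_dvd' hij.le).mp this
    have := Nat.le_of_dvd (by omega) hd
    omega
  let U : ℕ → Prop := fun i => (W (i + 1)).1 = (W i).1 + 1 ∧ Inc β (W i).1 (W i).2 (W (i + 1)).2
  have D : ∀ i, ¬ U i → (W i).1 = (W (i + 1)).1 + 1 ∧
      Inc β (W (i + 1)).1 (W (i + 1)).2 (W i).2 := by
    intro i hU
    have := Wadj i
    rw [Gr, SimpleGraph.fromRel_adj] at this
    rcases this.2 with h | h
    · exact absurd h hU
    · exact h
  let h : ℕ → ℤ := ht (fun i => decide (U i))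
  have hU : ∀ i, U i → h (i + 1) = h i + 1 := fun i e => by simp [h, ht, e]
  have hD : ∀ i, ¬ U i → h (i + 1) = h i - 1 := fun i e => by simp [h, ht, e]; ring
  have h0 : h 0 = 0 := rfl
  have hs : ∀ i, h (i + 1) = h i + 1 ∨ h (i + 1) = h i - 1 := by
    intro i
    by_cases e : U i
    · exact Or.inl (hU i e)
    · exact Or.inr (hD i e)
  have hW : ∀ i, (W i).1 = (W 0).1 + (h i : ZMod M) := by
    intro i
    induction i with
    | zero => simp [h0]
    | succ i ih =>
      by_cases e : U i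
      · rw [e.1, hU i e, ih]; push_cast; ring
      · have := (D i e).1
        rw [hD i e]; push_cast
        rw [ih] at this
        linear_combination -this
  have hb : ∀ i : ℕ, h i ≤ i ∧ -(i : ℤ) ≤ h i := by
    intro i
    induction i with
    | zero => simp [h0]
    | succ i ih => rcases hs i with e | e <;> (push_cast; omega)
  have hn0 : h n = 0 := by
    by_contra hne
    have e := hW n
    have e' : W n = W 0 := by simpa using Wper 0
    rw [e'] at e
    have := cast_ne hM (W 0).1 (a := h n) (b := 0) hne (by have := hb n; omega)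
      (by have := hb n; omega)
    apply this
    simpa using e.symm
  have hper : ∀ i, h (i + n) = h i := by
    intro i
    induction i with
    | zero => simpa [h0] using hn0
    | succ i ih =>
      have eU : U (i + n) ↔ U i := by
        simp only [U]
        rw [Wper, show i + n + 1 = i + 1 + n by ring, Wper]
      rw [show i + 1 + n = i + n + 1 by ring]
      by_cases e : U i
      · rw [hU i e, hU _ (eU.mpr e), ih]
      · rw [hD i e, hD _ (fun e' => e (eU.mp e')), ih]
  obtain ⟨r, hr⟩ := classify n h3 h10 h hs hper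
  have hK : ∀ i, (W (r + i)).1 = (W r).1 + ((h (r + i) - h r : ℤ) : ZMod M) := by
    intro i
    rw [hW (r + i), hW r]; push_cast; ring
  refine no_short hM hβ1 hβ2 (W r).1 n h3 h10 (fun i => h (r + i) - h r) (by simp)
    (fun i => (W (r + i)).2) (fun i => ?_) (fun i => ?_) (fun i => ?_) (fun i j hij hj e e' => ?_)
    hr
  · by_cases e : U (r + i)
    · left
      refine ⟨by rw [← add_assoc, hU _ e]; ring, ?_⟩
      rw [← hK]
      exact e.2
    · right
      refine ⟨by rw [← add_assoc, hD _ e]; ring, ?_⟩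
      rw [← hK]
      exact (D _ e).2
  · show (W (r + (i + n))).2 = _
    rw [← add_assoc, Wper]
  · show h (r + (i + n)) - h r = _
    rw [← add_assoc, hper]
  · apply Winj (r + i) (r + j) (by omega) (by omega)
    refine Prod.ext ?_ e'
    rw [hK, hK, e]

end Core

end Pool.Agent.Lib.MP_fefc02_co
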