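import Mathlib
import Pool.Agent.Lib.MP_fefc02_co.Girth

set_option autoImplicit false

/-! Generic pairs of vertices of layer `0` are joined by a walk of length `M + 16`. -/

namespace Pool.Agent.Lib.MP_fefc02_co

section Defs
variable {R : Type} [CommRing R] {M : ℕ}

def setW (β : ZMod M → Fin 4) (k : ZMod M) (z : Idx M → R) (t : R) (l : Fin 4 → R) :
    Idx M → R
  | Sum.inl i => if i = k then t else z (Sum.inl i)
  | Sum.inr (b, j) => if b = β k then l j else z (Sum.inr (b, j))

variable {β : ZMod M → Fin 4}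

omit [CommRing R] in
lemma A_setW (k : ZMod M) (z : Idx M → R) (t : R) (l : Fin 4 → R) (i : ZMod M) :
    A (setW β k z t l) i = if i = k then t else A z i := rfl

omit [CommRing R] in
lemma B_setW (k : ZMod M) (z : Idx M → R) (t : R) (l : Fin 4 → R) (b : Fin 4) :
    B (setW β k z t l) b = if b = β k then l else B z b := by
  funext j
  by_cases h : b = β k <;> simp [B, setW, h]

omit [CommRing R] in
lemma setW_self (k : ZMod M) (z : Idx M → R) : setW β k z (A z k) (B z (β k)) = z := by
  apply st_ext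
  · intro i
    rw [A_setW]
    split_ifs with h
    · rw [h]
    · rfl
  · intro b
    rw [B_setW]
    split_ifs with h
    · rw [h]
    · rfl

lemma inc_setW (hM : 11 ≤ M) (k : ZMod M) (z : Idx M → R) {s t : R} {p l : Fin 4 → R}
    (h : HInc (A z (k - 1)) s p t l) : Inc β k (setW β k z s p) (setW β k z t l) := by
  refine ⟨fun i hi => ?_, fun b hb => ?_, ?_⟩
  · simp [A_setW, hi]
  · simp [B_setW, hb]
  · simpa [A_setW, B_setW, pred_ne hM k] using h

lemma adj_of_inc (hM : 11 ≤ M) {k : ZMod M} {x y : Idx M → R} (h : Inc β k x y) :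
    (Gr R β).Adj (k, x) (k + 1, y) := by
  rw [Gr, SimpleGraph.fromRel_adj]
  refine ⟨fun e => ?_, Or.inl ⟨rfl, h⟩⟩
  have e1 : k = k + 1 := congrArg Prod.fst e
  exact pred_ne hM k (by linear_combination e1)

def fw (β : ZMod M → Fin 4) (x y : Idx M → R) : ℕ → Idx M → R
  | 0 => x
  | k + 1 => setW β k (fw β x y k) (A y k)
      (if k + 4 < M then upL (A (fw β x y k) (k - 1)) (A (fw β x y k) k)
        (B (fw β x y k) (β k)) (A y k) else B y (β k))

def Dk (β : ZMod M → Fin 4) (x y : Idx M → R) (k : ℕ) : R :=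
  Del (A (fw β x y k) (k - 1)) (A (fw β x y k) k) (B (fw β x y k) (β k)) (A y k) (B y (β k))

def Psi (β : ZMod M → Fin 4) (x y : Idx M → R) : R :=
  ∏ r ∈ Finset.range 4, Dk β x y (M - 4 + r)

lemma fw_map {S : Type} [CommRing S] (φ : R →+* S) (x y : Idx M → R) (k : ℕ) :
    (fun i => φ (fw β x y k i)) = fw β (fun i => φ (x i)) (fun i => φ (y i)) k := by
  induction k with
  | zero => rfl
  | succ k ih =>
    funext i
    simp only [fw]
    rw [← ih]
    rcases i with i | ⟨b, j⟩
    · simp only [setW]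
      split_ifs <;> rfl
    · simp only [setW]
      split_ifs
      · rw [upL_map]; rfl
      · rfl
      · rfl

lemma Dk_map {S : Type} [CommRing S] (φ : R →+* S) (x y : Idx M → R) (k : ℕ) :
    φ (Dk β x y k) = Dk β (fun i => φ (x i)) (fun i => φ (y i)) k := by
  unfold Dk
  rw [Del_map, ← fw_map]
  rfl

lemma Psi_map {S : Type} [CommRing S] (φ : R →+* S) (x y : Idx M → R) :
    φ (Psi β x y) = Psi β (fun i => φ (x i)) (fun i => φ (y i)) := by
  unfold Psi
  rw [map_prod]
  exact Finset.prod_congr rfl fun r _ => Dk_map φ x y _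

lemma natCast_inj_lt {i j : ℕ} (hi : i < M) (hj : j < M) (h : (i : ZMod M) = j) : i = j := by
  have := congrArg ZMod.val h
  rwa [ZMod.val_cast_of_lt hi, ZMod.val_cast_of_lt hj] at this

lemma fw_end (hM : 11 ≤ M) (hβc : ∀ r : Fin 4, β ((M - 4 + r : ℕ) : ZMod M) = r)
    (x y : Idx M → R) : fw β x y M = y := by
  have : NeZero M := ⟨by omega⟩
  have hA : ∀ k, ∀ i : ℕ, i < k → A (fw β x y k) i = A y i := by
    intro k
    induction k with
    | zero => intro i hi; omega
    | succ k ih =>
      intro i hi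
      rw [fw, A_setW]
      split_ifs with h
      · rw [h]
      · apply ih
        by_contra h'
        exact h (by rw [show i = k by omega])
  have hB : ∀ r ≤ 4, ∀ b : Fin 4, b.val < r → B (fw β x y (M - 4 + r)) b = B y b := by
    intro r
    induction r with
    | zero => intro _ b hb; omega
    | succ r ih =>
      intro hr b hb
      have e := hβc ⟨r, by omega⟩
      simp only at e
      rw [← add_assoc, fw, B_setW, if_neg (show ¬ (M - 4 + r + 4 < M) by omega), e]
      split_ifs with h
      · rw [h]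
      · apply ih (by omega)
        have : b.val ≠ r := fun e' => h (Fin.ext e')
        omega
  apply st_ext
  · intro i
    have := hA M i.val (ZMod.val_lt i)
    rwa [ZMod.natCast_zmod_val] at this
  · intro b
    have := hB 4 le_rfl b b.isLt
    rwa [show M - 4 + 4 = M by omega] at this

lemma fw_diag_A (x : Idx M → R) (k : ℕ) (i : ZMod M) : A (fw β x x k) i = A x i := by
  induction k with
  | zero => rfl
  | succ k ih =>
    rw [fw, A_setW]
    split_ifs with h
    · rw [h]
    · exact ih

/-- the test point for the core at layer `k` -/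
def tp (R : Type) [CommRing R] (k : ZMod M) : Idx M → R
  | Sum.inl i => if i = k ∨ i = k - 1 then 1 else 0
  | Sum.inr _ => 0

lemma Dk_diag (hβ1 : ∀ k, β (k - 1) ≠ β k) (k : ℕ) (hk : k < M) :
    Dk β (tp R (k : ZMod M)) (tp R (k : ZMod M)) k = -30 := by
  have hB : ∀ i ≤ k, B (fw β (tp R (k : ZMod M)) (tp R (k : ZMod M)) i) (β k) = fun _ => 0 := by
    intro i
    induction i with
    | zero => intro _; rfl
    | succ i ih =>
      intro hi
      rw [fw, B_setW]
      split_ifs with h h'
      · have a0 : A (tp R (k : ZMod M)) i = 0 := by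
          have n1 : (i : ZMod M) ≠ k := fun e => by
            have := natCast_inj_lt (by omega) hk e
            omega
          have n2 : (i : ZMod M) ≠ k - 1 := fun e => hβ1 k (by rw [← e, h])
          simp [A, tp, n1, n2]
        rw [fw_diag_A _ _ (i : ZMod M), a0, upL_zero, ← h]
        exact ih (by omega)
      · rfl
      · exact ih (by omega)
  unfold Dk
  rw [hB k le_rfl, fw_diag_A, fw_diag_A]
  have e1 : A (tp R (k : ZMod M)) (k - 1) = 1 := by simp [A, tp]
  have e2 : A (tp R (k : ZMod M)) k = 1 := by simp [A, tp]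
  rw [e1, e2]
  exact Del_diag

end Defs

section Field
variable {F : Type} [Field F] {M : ℕ} {β : ZMod M → Fin 4}

lemma edist_adj {V : Type} {G : SimpleGraph V} {u v : V} (h : G.Adj u v) : G.edist u v ≤ 1 :=
  SimpleGraph.edist_le_one_iff_adj_or_eq.mpr (Or.inl h)

lemma core_walk (hM : 11 ≤ M) (k : ZMod M) (z : Idx M → F) (t : F) (l : Fin 4 → F)
    (h : Del (A z (k - 1)) (A z k) (B z (β k)) t l ≠ 0) :
    (Gr F β).edist (k, z) (k + 1, setW β k z t l) ≤ 5 := by
  obtain ⟨t0, s1, t1, s2, e⟩ := path_five h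
  set c := A z (k - 1) with hc
  have a0 := adj_of_inc hM (inc_setW (β := β) hM k z (hinc_upL c (A z k) (B z (β k)) t0))
  have a1 := adj_of_inc hM (inc_setW (β := β) hM k z
    (hinc_dnP c t0 (upL c (A z k) (B z (β k)) t0) s1))
  have a2 := adj_of_inc hM (inc_setW (β := β) hM k z
    (hinc_upL c s1 (dnP c t0 (upL c (A z k) (B z (β k)) t0) s1) t1))
  have a3 := adj_of_inc hM (inc_setW (β := β) hM k z
    (hinc_dnP c t1 (upL c s1 (dnP c t0 (upL c (A z k) (B z (β k)) t0) s1) t1) s2))
  have a4 := adj_of_inc hM (inc_setW (β := β) hM k z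
    (hinc_upL c s2 (dnP c t1 (upL c s1 (dnP c t0 (upL c (A z k) (B z (β k)) t0) s1) t1) s2) t))
  rw [setW_self] at a0
  rw [e] at a4
  exact SimpleGraph.edist_le (.cons a0 (.cons a1.symm (.cons a2 (.cons a3.symm (.cons a4 .nil)))))

lemma long_walk (hM : 11 ≤ M) (hβc : ∀ r : Fin 4, β ((M - 4 + r : ℕ) : ZMod M) = r)
    (x y : Idx M → F) (h : Psi β x y ≠ 0) :
    (Gr F β).edist (0, x) (0, y) ≤ ((M + 16 : ℕ) : ℕ∞) := by
  have h1 : ∀ k, k ≤ M - 4 → (Gr F β).edist (0, x) ((k : ZMod M), fw β x y k) ≤ (k : ℕ∞) := by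
    intro k
    induction k with
    | zero => intro _; simp [fw]
    | succ k ih =>
      intro hk
      have a := adj_of_inc hM (inc_setW (β := β) hM (k : ZMod M) (fw β x y k)
        (hinc_upL (A (fw β x y k) (k - 1)) (A (fw β x y k) k) (B (fw β x y k) (β k)) (A y k)))
      rw [setW_self] at a
      refine (SimpleGraph.edist_triangle (v := ((k : ZMod M), fw β x y k))).trans ?_
      rw [fw, if_pos (by omega)]
      push_cast
      exact add_le_add (ih (by omega)) (edist_adj a)
  have h2 : ∀ r, r ≤ 4 → (Gr F β).edist (0, x) (((M - 4 + r : ℕ) : ZMod M), fw β x y (M - 4 + r))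
      ≤ ((M - 4 + 5 * r : ℕ) : ℕ∞) := by
    intro r
    induction r with
    | zero => intro _; exact h1 _ le_rfl
    | succ r ih =>
      intro hr
      have hD : Dk β x y (M - 4 + r) ≠ 0 := fun e =>
        h (Finset.prod_eq_zero (Finset.mem_range.mpr (by omega : r < 4)) e)
      have a := core_walk hM _ _ _ _ hD
      refine (SimpleGraph.edist_triangle
        (v := (((M - 4 + r : ℕ) : ZMod M), fw β x y (M - 4 + r)))).trans ?_
      rw [← add_assoc, fw, if_neg (by omega), show M - 4 + 5 * (r + 1) = M - 4 + 5 * r + 5 by ring,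
        Nat.cast_add (M - 4 + 5 * r), Nat.cast_succ (M - 4 + r)]
      exact add_le_add (ih (by omega)) a
  have := h2 4 le_rfl
  rwa [show M - 4 + 4 = M by omega, fw_end hM hβc, ZMod.natCast_self,
    show M - 4 + 5 * 4 = M + 16 by omega] at this

lemma degree_le [Fintype F] (hM : 11 ≤ M) (v : ZMod M × (Idx M → F)) :
    ((Gr F β).neighborSet v).ncard ≤ 2 * Fintype.card F := by
  classical
  obtain ⟨k, x⟩ := v
  let g : F ⊕ F → ZMod M × (Idx M → F) := fun a => match a with
    | Sum.inl t => (k + 1, setW β k x t (upL (A x (k - 1)) (A x k) (B x (β k)) t))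
    | Sum.inr s => (k - 1, setW β (k - 1) x s
        (dnP (A x (k - 1 - 1)) (A x (k - 1)) (B x (β (k - 1))) s))
  have hsub : (Gr F β).neighborSet (k, x) ⊆ Set.range g := by
    rintro ⟨k', y⟩ hy
    rw [SimpleGraph.mem_neighborSet, Gr, SimpleGraph.fromRel_adj] at hy
    rcases hy.2 with ⟨e, h⟩ | ⟨e, h⟩
    · refine ⟨Sum.inl (A y k), Prod.ext e.symm ?_⟩
      have h' := inc_setW (β := β) hM k x (hinc_upL (A x (k - 1)) (A x k) (B x (β k)) (A y k))
      rw [setW_self] at h'
      exact nb_dn h' h (by simp [g, A_setW])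
    · simp only at e h
      have ek : k' = k - 1 := by rw [e]; ring
      subst ek
      refine ⟨Sum.inr (A y (k - 1)), Prod.ext rfl ?_⟩
      have h' := inc_setW (β := β) hM (k - 1) x
        (hinc_dnP (A x (k - 1 - 1)) (A x (k - 1)) (B x (β (k - 1))) (A y (k - 1)))
      rw [setW_self] at h'
      exact nb_up hM h' h (by simp [g, A_setW])
  calc _ ≤ (Set.range g).ncard := Set.ncard_le_ncard hsub (Set.finite_range g)
    _ ≤ Nat.card (F ⊕ F) := by
      rw [← Set.image_univ, ← Set.ncard_univ]
      exact Set.ncard_image_le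
    _ = 2 * Fintype.card F := by simp [two_mul]

end Field

end Pool.Agent.Lib.MP_fefc02_co
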