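import Mathlib
import Pool.Agent.Lib.MP_fefc02_co.Path

set_option autoImplicit false

/-! Counting: rank bound for colour classes and the final lower bound. -/

namespace Pool.Agent.Lib.MP_fefc02_co

open MvPolynomial

lemma rank_bound {ι F : Type} [Fintype ι] [Field F] (Φ : MvPolynomial (ι ⊕ ι) ℤ)
    (T : Finset (ι → F)) (g : (ι → F) → (ι → F) → F)
    (hg : ∀ x y, g x y = eval₂ (Int.castRingHom F) (Sum.elim x y) Φ)
    (h0 : ∀ x ∈ T, ∀ y ∈ T, x ≠ y → g x y = 0) (h1 : ∀ x ∈ T, g x x ≠ 0) :
    T.card ≤ Φ.support.card := by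
  classical
  let u : T → (Φ.support → F) := fun x m => ∏ i, x.1 i ^ m.1 (Sum.inl i)
  let v : (ι → F) → (Φ.support → F) := fun y m =>
    ((coeff m.1 Φ : ℤ) : F) * ∏ i, y i ^ m.1 (Sum.inr i)
  have huv : ∀ (x : T) y, g x.1 y = ∑ m, u x m * v y m := by
    intro x y
    rw [hg, eval₂_eq', ← Finset.sum_coe_sort]
    refine Finset.sum_congr rfl fun m _ => ?_
    rw [Fintype.prod_sum_type]
    simp only [u, v, Sum.elim_inl, Sum.elim_inr, eq_intCast]
    ring
  have hli : LinearIndependent F u := by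
    rw [Fintype.linearIndependent_iff]
    intro a ha y
    have : ∑ x : T, a x * g x.1 y.1 = 0 := by
      simp only [huv, Finset.mul_sum]
      rw [Finset.sum_comm]
      refine Finset.sum_eq_zero fun m _ => ?_
      have := congrFun ha m
      simp only [Finset.sum_apply, Pi.smul_apply, smul_eq_mul, Pi.zero_apply] at this
      calc ∑ x : T, a x * (u x m * v y.1 m) = (∑ x : T, a x * u x m) * v y.1 m := by
            rw [Finset.sum_mul]
            exact Finset.sum_congr rfl fun x _ => by ring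
        _ = 0 := by rw [this, zero_mul]
    rw [Finset.sum_eq_single y] at this
    · exact (mul_eq_zero.mp this).resolve_right (h1 _ y.2)
    · intro x _ hx
      rw [h0 _ x.2 _ y.2 (fun e => hx (Subtype.ext e)), mul_zero]
    · simp
  have := hli.fintype_card_le_finrank
  simpa using this

lemma sz_bound {ι F : Type} [Fintype ι] [DecidableEq ι] [Field F] [Fintype F] [DecidableEq F]
    (P : MvPolynomial ι F) (hP : P ≠ 0) :
    (Finset.univ.filter fun x : ι → F => eval x P = 0).card * Fintype.card F ≤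
      P.totalDegree * Fintype.card F ^ Fintype.card ι := by
  classical
  let e := Fintype.equivFin ι
  have hP' : rename e P ≠ 0 := fun h =>
    hP (rename_injective e e.injective (by rw [h, map_zero]))
  have h := schwartz_zippel_totalDegree hP' (Finset.univ : Finset F)
  have hc : (Finset.univ.filter fun x : ι → F => eval x P = 0).card =
      ((Fintype.piFinset fun _ : Fin (Fintype.card ι) => (Finset.univ : Finset F)).filter
        fun f => eval f (rename e P) = 0).card := by
    symm
    refine Finset.card_bij (fun f _ => f ∘ e) ?_ ?_ ?_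
    · intro f hf
      simpa [eval_rename] using hf
    · intro f _ g _ hfg
      funext j
      have := congrFun hfg (e.symm j)
      simpa using this
    · intro x hx
      refine ⟨x ∘ e.symm, ?_, by funext j; simp⟩
      have : (x ∘ e.symm) ∘ e = x := by funext j; simp
      simpa [eval_rename, this] using hx
  rw [← hc, Finset.card_univ] at h
  have hq : (0 : ℚ≥0) < Fintype.card F := by exact_mod_cast Fintype.card_pos
  rw [div_le_div_iff₀ (by positivity) hq] at h
  have h2 : ((Finset.univ.filter fun x : ι → F => eval x P = 0).card * Fintype.card F : ℕ) ≤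
      (rename e P).totalDegree * Fintype.card F ^ Fintype.card ι := by exact_mod_cast h
  exact h2.trans (Nat.mul_le_mul_right _ (totalDegree_rename_le e P))

lemma line_edist {V : Type} {G : SimpleGraph V} {u v : V} (p : G.Walk u v) :
    ∀ (e f : G.edgeSet), u ∈ (e : Sym2 V) → v ∈ (f : Sym2 V) →
      G.lineGraph.edist e f ≤ ((p.length + 1 : ℕ) : ℕ∞) := by
  have base : ∀ (w : V) (e f : G.edgeSet), w ∈ (e : Sym2 V) → w ∈ (f : Sym2 V) →
      G.lineGraph.edist e f ≤ 1 := by
    intro w e f he hf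
    rw [SimpleGraph.edist_le_one_iff_adj_or_eq]
    by_cases h : e = f
    · exact Or.inr h
    · exact Or.inl (SimpleGraph.lineGraph_adj_iff_exists.mpr ⟨h, w, he, hf⟩)
  induction p with
  | nil => intro e f he hf; simpa using base _ e f he hf
  | @cons a b c h p ih =>
    intro e f he hf
    refine (SimpleGraph.edist_triangle (v := (⟨s(a, b), h⟩ : G.edgeSet))).trans ?_
    have h1 := base a e ⟨s(a, b), h⟩ he (by simp)
    have h2 := ih ⟨s(a, b), h⟩ f (by simp) hf
    refine (add_le_add h1 h2).trans (le_of_eq ?_)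
    simp only [SimpleGraph.Walk.length_cons]
    push_cast
    ring

lemma line_edist' {V : Type} {G : SimpleGraph V} {u v : V} {n : ℕ} (h : G.edist u v ≤ (n : ℕ∞))
    (e f : G.edgeSet) (he : u ∈ (e : Sym2 V)) (hf : v ∈ (f : Sym2 V)) :
    G.lineGraph.edist e f ≤ ((n + 1 : ℕ) : ℕ∞) := by
  obtain ⟨p, hp⟩ := SimpleGraph.exists_walk_of_edist_ne_top
    (ne_top_of_le_ne_top (ENat.natCast_ne_top n) h)
  refine (line_edist p e f he hf).trans ?_
  rw [← hp] at h
  have : p.length ≤ n := by exact_mod_cast h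
  exact_mod_cast Nat.succ_le_succ this

section Main
variable {M : ℕ} {β : ZMod M → Fin 4}

noncomputable def PhiZ (β : ZMod M → Fin 4) : MvPolynomial (Idx M ⊕ Idx M) ℤ :=
  Psi β (fun i => X (Sum.inl i)) (fun i => X (Sum.inr i))

noncomputable def DiagZ (β : ZMod M → Fin 4) : MvPolynomial (Idx M) ℤ :=
  Psi β X X

lemma psi_eq_eval {F : Type} [Field F] (x y : Idx M → F) :
    Psi β x y = eval₂ (Int.castRingHom F) (Sum.elim x y) (PhiZ β) := by
  have := Psi_map (β := β) (eval₂Hom (Int.castRingHom F) (Sum.elim x y))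
    (fun i => X (Sum.inl i)) (fun i => X (Sum.inr i))
  simp only [eval₂Hom_X', Sum.elim_inl, Sum.elim_inr] at this
  rw [← this]
  rfl

lemma good_card [NeZero M] {F : Type} [Field F] [Fintype F] [DecidableEq F] (hM : 11 ≤ M)
    (hβ1 : ∀ k, β (k - 1) ≠ β k) (h30 : (30 : F) ≠ 0)
    (hq : 2 * (DiagZ β).totalDegree ≤ Fintype.card F) :
    Fintype.card F ^ (M + 16) ≤
      2 * (Finset.univ.filter fun x : Idx M → F => Psi β x x ≠ 0).card := by
  classical
  obtain ⟨P, hPd⟩ : ∃ P : MvPolynomial (Idx M) F, P = Psi β X X := ⟨_, rfl⟩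
  have hPm : P = map (Int.castRingHom F) (DiagZ β) := by
    have := Psi_map (β := β) (map (Int.castRingHom F) : MvPolynomial (Idx M) ℤ →+* _) X X
    simp only [map_X] at this
    rw [hPd, DiagZ, this]
  have hdeg : P.totalDegree ≤ (DiagZ β).totalDegree := by
    rw [hPm, totalDegree, totalDegree]
    exact Finset.sup_mono (support_map_subset (Int.castRingHom F) (DiagZ β))
  have hev : ∀ x : Idx M → F, eval x P = Psi β x x := by
    intro x
    have := Psi_map (β := β) (eval x : MvPolynomial (Idx M) F →+* F) X X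
    simp only [eval_X] at this
    rw [hPd, this]
  have hP : P ≠ 0 := by
    rw [hPd, Psi]
    refine Finset.prod_ne_zero_iff.mpr fun r hr e => ?_
    have hr' := Finset.mem_range.mp hr
    have := Dk_map (β := β)
      (eval (tp F ((M - 4 + r : ℕ) : ZMod M)) : MvPolynomial (Idx M) F →+* F) X X (M - 4 + r)
    simp only [eval_X] at this
    rw [e, map_zero, Dk_diag hβ1 _ (by omega)] at this
    exact h30 (by linear_combination this)
  have hz := sz_bound P hP
  have hcard : Fintype.card (Idx M) = M + 16 := by simp [Idx, ZMod.card]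
  rw [hcard] at hz
  simp only [hev] at hz
  have htot := Finset.card_filter_add_card_filter_not (s := (Finset.univ : Finset (Idx M → F)))
    (fun x => Psi β x x = 0)
  rw [Finset.card_univ, Fintype.card_fun, hcard] at htot
  have hpos : 0 < Fintype.card F := Fintype.card_pos
  set Z := (Finset.univ.filter fun x : Idx M → F => Psi β x x = 0).card
  have h2 : 2 * Z ≤ Fintype.card F ^ (M + 16) := by
    apply Nat.le_of_mul_le_mul_right _ hpos
    calc 2 * Z * Fintype.card F = 2 * (Z * Fintype.card F) := by ring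
      _ ≤ 2 * (P.totalDegree * Fintype.card F ^ (M + 16)) := by omega
      _ = (2 * P.totalDegree) * Fintype.card F ^ (M + 16) := by ring
      _ ≤ Fintype.card F * Fintype.card F ^ (M + 16) := Nat.mul_le_mul_right _ (by omega)
      _ = _ := by ring
  simp only [ne_eq]
  omega

lemma colours_ge [NeZero M] {F : Type} [Field F] [Fintype F] [DecidableEq F] (hM : 11 ≤ M)
    (hβ1 : ∀ k, β (k - 1) ≠ β k) (hβc : ∀ r : Fin 4, β ((M - 4 + r : ℕ) : ZMod M) = r)
    (h30 : (30 : F) ≠ 0) (hq : 2 * (DiagZ β).totalDegree ≤ Fintype.card F) (k : ℕ)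
    (c : (Gr F β).edgeSet → Fin k)
    (hc : ∀ e f : (Gr F β).edgeSet, e ≠ f →
      (Gr F β).lineGraph.edist e f ≤ ((M + 17 : ℕ) : ℕ∞) → c e ≠ c f) :
    Fintype.card F ^ (M + 17) ≤ 2 * (PhiZ β).support.card * k := by
  classical
  have hadj : ∀ (x : Idx M → F) (a : F), (Gr F β).Adj (0, x)
      (0 + 1, setW β 0 x a (upL (A x (0 - 1)) (A x 0) (B x (β 0)) a)) := by
    intro x a
    have := adj_of_inc hM (inc_setW (β := β) hM 0 x (hinc_upL (A x (0 - 1)) (A x 0) (B x (β 0)) a))
    rwa [setW_self] at this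
  let ed : (Idx M → F) × F → (Gr F β).edgeSet := fun z =>
    ⟨s((0, z.1), (0 + 1, setW β 0 z.1 z.2 (upL (A z.1 (0 - 1)) (A z.1 0) (B z.1 (β 0)) z.2))),
      hadj z.1 z.2⟩
  have hed : Function.Injective ed := by
    rintro ⟨x, a⟩ ⟨y, b⟩ h
    have h' := congrArg Subtype.val h
    simp only [ed, Sym2.eq_iff] at h'
    rcases h' with ⟨h1, h2⟩ | ⟨h1, -⟩
    · have e1 : x = y := congrArg Prod.snd h1
      have e2 := congrArg (fun w => A w.2 0) h2
      simp only [A_setW, if_true] at e2
      rw [e1, e2]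
    · have e1 : (0 : ZMod M) = 0 + 1 := congrArg Prod.fst h1
      exact absurd (by linear_combination e1) (pred_ne hM 0)
  have hmem : ∀ z, ((0 : ZMod M), z.1) ∈ (ed z : Sym2 _) := fun z => by simp [ed]
  set S := Finset.univ.filter fun x : Idx M → F => Psi β x x ≠ 0 with hS
  have hgood := good_card hM hβ1 h30 hq
  rw [← hS] at hgood
  have hfib := Finset.card_le_mul_card_image_of_maps_to (s := S ×ˢ (Finset.univ : Finset F))
    (t := (Finset.univ : Finset (Fin k))) (f := fun z => c (ed z)) (fun _ _ => Finset.mem_univ _)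
    (PhiZ β).support.card (by
      intro j _
      set T := (S ×ˢ (Finset.univ : Finset F)).filter fun z => c (ed z) = j with hT
      have key : ∀ z ∈ T, ∀ w ∈ T, z ≠ w →
          ¬ (Gr F β).edist (0, z.1) (0, w.1) ≤ ((M + 16 : ℕ) : ℕ∞) := by
        intro z hz w hw hne hd
        refine hc (ed z) (ed w) (fun e => hne (hed e))
          (line_edist' hd _ _ (hmem z) (hmem w)) ?_
        rw [(Finset.mem_filter.mp hz).2, (Finset.mem_filter.mp hw).2]
      have hinj : Set.InjOn Prod.fst (T : Set ((Idx M → F) × F)) := by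
        intro z hz w hw e
        by_contra hne
        apply key z hz w hw hne
        rw [e]
        simp
      rw [← Finset.card_image_of_injOn hinj]
      refine rank_bound (PhiZ β) _ (Psi β) psi_eq_eval ?_ ?_
      · intro x hx y hy hne
        obtain ⟨z, hz, rfl⟩ := Finset.mem_image.mp hx
        obtain ⟨w, hw, rfl⟩ := Finset.mem_image.mp hy
        by_contra h
        exact key z hz w hw (fun e => hne (by rw [e])) (long_walk hM hβc _ _ h)
      · intro x hx
        obtain ⟨z, hz, rfl⟩ := Finset.mem_image.mp hx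
        have := (Finset.mem_product.mp (Finset.mem_filter.mp hz).1).1
        exact (Finset.mem_filter.mp this).2)
  rw [Finset.card_product, Finset.card_univ, Finset.card_univ, Fintype.card_fin] at hfib
  calc Fintype.card F ^ (M + 17) = Fintype.card F ^ (M + 16) * Fintype.card F := by ring
    _ ≤ 2 * S.card * Fintype.card F := Nat.mul_le_mul_right _ hgood
    _ = 2 * (S.card * Fintype.card F) := by ring
    _ ≤ 2 * ((PhiZ β).support.card * k) := by omega
    _ = _ := by ring

lemma exists_beta (M : ℕ) (hM : 11 ≤ M) : ∃ β : ZMod M → Fin 4,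
    (∀ k, β (k - 1) ≠ β k) ∧ (∀ k, β (k - 2) ≠ β k) ∧
      ∀ r : Fin 4, β ((M - 4 + r : ℕ) : ZMod M) = r := by
  have : NeZero M := ⟨by omega⟩
  obtain ⟨a, b, hb, hab⟩ : ∃ a b : ℕ, 1 ≤ b ∧ M = 3 * a + 4 * b := by
    have h3 : M % 3 = 0 ∨ M % 3 = 1 ∨ M % 3 = 2 := by omega
    rcases h3 with h | h | h
    · exact ⟨(M - 12) / 3, 3, by omega, by omega⟩
    · exact ⟨(M - 4) / 3, 1, by omega, by omega⟩
    · exact ⟨(M - 8) / 3, 2, by omega, by omega⟩
  let g : ℕ → ℕ := fun k => if k < 3 * a then k % 3 else (k - 3 * a) % 4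
  have hg : ∀ k, g k < 4 := fun k => by simp only [g]; split_ifs <;> omega
  have hv : ∀ (k : ZMod M) (j : ℕ), j ≤ 2 → (k - (j : ZMod M)).val = (k.val + M - j) % M := by
    intro k j hj
    rw [← ZMod.val_natCast]
    congr 1
    rw [Nat.cast_sub (by omega)]
    simp
  refine ⟨fun k => ⟨g k.val, hg _⟩, fun k e => ?_, fun k e => ?_, fun r => ?_⟩
  · have e' : g (k - 1).val = g k.val := congrArg Fin.val e
    have h1 := hv k 1 (by omega)
    rw [Nat.cast_one] at h1
    have hk := ZMod.val_lt k
    rw [h1] at e'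
    generalize k.val = v at *
    by_cases h0 : v = 0
    · rw [h0, Nat.mod_eq_of_lt (by omega)] at e'
      simp only [g] at e'
      split_ifs at e' <;> omega
    · rw [show v + M - 1 = v - 1 + M by omega, Nat.add_mod_right, Nat.mod_eq_of_lt (by omega)] at e'
      simp only [g] at e'
      split_ifs at e' <;> omega
  · have e' : g (k - 2).val = g k.val := congrArg Fin.val e
    have h1 := hv k 2 (by omega)
    rw [Nat.cast_ofNat] at h1
    have hk := ZMod.val_lt k
    rw [h1] at e'
    generalize k.val = v at *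
    by_cases h0 : v < 2
    · rw [Nat.mod_eq_of_lt (by omega)] at e'
      simp only [g] at e'
      split_ifs at e' <;> omega
    · rw [show v + M - 2 = v - 2 + M by omega, Nat.add_mod_right, Nat.mod_eq_of_lt (by omega)] at e'
      simp only [g] at e'
      split_ifs at e' <;> omega
  · apply Fin.ext
    have hr := r.isLt
    simp only [g]
    rw [ZMod.val_cast_of_lt (by omega)]
    split_ifs <;> omega

theorem main (t : ℕ) (ht : 28 ≤ t) :
    ∃ c₀ : ℝ, 0 < c₀ ∧ ∃ d₀ : ℕ, ∀ d : ℕ, d₀ ≤ d →
      ∃ (V : Type) (_ : Fintype V) (G : SimpleGraph V),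
        (∀ v, (G.neighborSet v).ncard ≤ d) ∧
        (∀ (v : V) (p : G.Walk v v), p.IsCycle → 10 < p.length) ∧
        ∀ k : ℕ, (∃ c : G.edgeSet → Fin k, ∀ e f : G.edgeSet, e ≠ f →
            G.lineGraph.edist e f ≤ (t : ℕ∞) → c e ≠ c f) →
          c₀ * (d : ℝ) ^ t ≤ (k : ℝ) := by
  classical
  obtain ⟨M, rfl⟩ : ∃ M, t = M + 17 := ⟨t - 17, by omega⟩
  have hM : 11 ≤ M := by omega
  have : NeZero M := ⟨by omega⟩
  obtain ⟨β, hβ1, hβ2, hβc⟩ := exists_beta M hM
  set K := (PhiZ β).support.card with hK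
  set D := (DiagZ β).totalDegree with hD
  refine ⟨1 / ((2 * K + 1) * 4 ^ (M + 17)), by positivity, 8 * D + 124, fun d hd => ?_⟩
  obtain ⟨p, hp, h1, h2⟩ := Nat.exists_prime_lt_and_le_two_mul (d / 4) (by omega)
  have : Fact p.Prime := ⟨hp⟩
  have h30 : (30 : ZMod p) ≠ 0 := by
    intro e
    have : ((30 : ℕ) : ZMod p) = 0 := by exact_mod_cast e
    rw [ZMod.natCast_eq_zero_iff] at this
    have := Nat.le_of_dvd (by norm_num) this
    omega
  refine ⟨ZMod M × (Idx M → ZMod p), inferInstance, Gr (ZMod p) β, fun v => ?_,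
    girth_gt hM hβ1 hβ2, ?_⟩
  · refine (degree_le hM v).trans ?_
    rw [ZMod.card]
    omega
  · rintro k ⟨c, hc⟩
    have h := colours_ge hM hβ1 hβc h30 (by rw [ZMod.card]; omega) k c hc
    rw [ZMod.card, ← hK] at h
    have hd4 : (d : ℝ) ≤ 4 * p := by exact_mod_cast (by omega : d ≤ 4 * p)
    have h' : (p : ℝ) ^ (M + 17) ≤ 2 * K * k := by exact_mod_cast h
    rw [div_mul_eq_mul_div, one_mul, div_le_iff₀ (by positivity)]
    calc (d : ℝ) ^ (M + 17) ≤ (4 * p) ^ (M + 17) := by gcongr
      _ = 4 ^ (M + 17) * (p : ℝ) ^ (M + 17) := mul_pow _ _ _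
      _ ≤ 4 ^ (M + 17) * (2 * K * k) := by gcongr
      _ ≤ 4 ^ (M + 17) * ((2 * K + 1) * k) := by gcongr; linarith
      _ = _ := by ring

end Main

end Pool.Agent.Lib.MP_fefc02_co
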